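import Mathlib
import Pool.Agent.Helper913.EPatFinal

set_option autoImplicit false

namespace Pool.Agent.Results.MP_0fc137_lc.AllTelltalesAmbiguous

open Pool.Agent.Helper913.EPat

/-! ### Definitions used in the statement -/

/-- Patterns over the alphabet `Fin k` (variables are the natural numbers). -/
abbrev Pat (k : ℕ) := List (ℕ ⊕ Fin k)

/-- The image of a pattern under the substitution which maps the variable `v` to `σ v` and fixes
every letter. -/
def subst {k : ℕ} (σ : ℕ → List (Fin k)) (α : Pat k) : List (Fin k) :=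
  α.flatMap (Sum.elim σ (fun a => [a]))

/-- The image of a pattern under the morphism of `(ℕ ∪ Σ)*` which maps the variable `v` to `φ v`
and fixes every letter. -/
def morph {k : ℕ} (φ : ℕ → Pat k) (α : Pat k) : Pat k :=
  α.flatMap (Sum.elim φ (fun a => [Sum.inr a]))

/-- The word obtained from `α` by deleting all letters. -/
def tf {k : ℕ} (α : Pat k) : Pat k := α.filter (fun s => s.isLeft)

/-- `α` is quasi-terminal-free on `Fin k`: at least two letters do not occur in `α`. -/
def QuasiTerminalFree {k : ℕ} (α : Pat k) : Prop :=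
  ∃ a b : Fin k, a ≠ b ∧ Sum.inr a ∉ α ∧ Sum.inr b ∉ α

/-- `α` is morphically primitive: there is no shorter pattern `β` and no morphisms `φ`, `ψ` fixing
every letter with `φ(α) = β` and `ψ(β) = α`. -/
def MorphicallyPrimitive {k : ℕ} (α : Pat k) : Prop :=
  ¬ ∃ (β : Pat k) (φ ψ : ℕ → Pat k), β ≠ [] ∧ β.length < α.length ∧ morph φ α = β ∧ morph ψ β = α

/-- The number of occurrences of the variable `j` in `α`. -/
def occ {k : ℕ} (j : ℕ) (α : Pat k) : ℕ := α.countP (fun s => decide (s = Sum.inl j))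

/-- `σ` is a telltale candidate for the variable `j` of `α`: some letter `A` occurs exactly once in
`σ j`, and the number of its occurrences in `σ (tf α)` is the number of occurrences of `j` in
`α`. -/
def TelltaleCandidate {k : ℕ} (σ : ℕ → List (Fin k)) (j : ℕ) (α : Pat k) : Prop :=
  ∃ A : Fin k, (σ j).count A = 1 ∧ (subst σ (tf α)).count A = occ j α

/-- `σ` is substantially ambiguous for `j` in `α`. -/
def SubstantiallyAmbiguous {k : ℕ} (σ : ℕ → List (Fin k)) (j : ℕ) (α : Pat k) : Prop :=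
  ∃ τ : ℕ → List (Fin k), subst τ α = subst σ α ∧ τ j = []

/-! ### The pattern -/

section Merged
variable {S : Type}

def y (j : ℕ) : ℕ ⊕ S := Sum.inl j
def m (i c : ℕ) : ℕ ⊕ S := Sum.inl (10 * i + c + 3)

def Yp : List (ℕ ⊕ S) := [y 0, y 0, y 1, y 1, y 2, y 2]
def hlp (n i : ℕ) : List (ℕ ⊕ S) := if i = n then [] else [m i 5]
def uup (i : ℕ) : List (ℕ ⊕ S) := if i = 0 then [] else m i 4 :: (Yp ++ [m i 5, m i 4])
def stp (n i : ℕ) : List (ℕ ⊕ S) := uup i ++ (Yp ++ hlp n (i + 1))
def C1 (n i : ℕ) : List (ℕ ⊕ S) := m i 0 :: m i 2 :: m i 2 :: (stp n i ++ [m i 1])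
def C2 (n i : ℕ) : List (ℕ ⊕ S) := m i 0 :: (stp n i ++ [m i 3, m i 3, m i 1])
def blk (n : ℕ) (T : ℕ → S) (i : ℕ) : List (ℕ ⊕ S) :=
  m i 6 :: Sum.inr (T i) :: (C1 n i ++ Sum.inr (T (i + 1)) :: m i 7 ::
    Sum.inr (T i) :: (C2 n i ++ [Sum.inr (T (i + 1))]))
def pat (n : ℕ) (T : ℕ → S) : List (ℕ ⊕ S) := (List.range n).flatMap (blk n T) ++ [m n 6]

/-- splitting the merged variables -/
def dec (n i : ℕ) : ℕ → List (Vr ⊕ S)
  | 6 => if i = 0 then [vv 0 6] else if i = n then [vv (n - 1) 9] else [vv (i - 1) 9, vv i 6]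
  | 7 => [vv i 7, vv i 8]
  | 8 => [vv i 10]
  | 9 => [vv i 11]
  | c => [vv i c]

def psi (n x : ℕ) : List (Vr ⊕ S) :=
  if x = 0 then [vy 0] else if x = 1 then [vy 1] else if x = 2 then [vy 2] else
    dec n ((x - 3) / 10) ((x - 3) % 10)

theorem psi_m (n i c : ℕ) (hc : c < 10) :
    (psi n (10 * i + c + 3) : List (Vr ⊕ S)) = dec n i c := by
  unfold psi
  have h1 : (10 * i + c + 3 - 3) / 10 = i := by omega
  have h2 : (10 * i + c + 3 - 3) % 10 = c := by omega
  rw [h1, h2]
  simp

theorem msub_m (n i c : ℕ) (hc : c < 10) (l : List (ℕ ⊕ S)) :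
    msub (psi n) (m i c :: l) = (dec n i c ++ msub (psi n) l : List (Vr ⊕ S)) := by
  unfold m
  rw [msub_inl, psi_m n i c hc]

theorem msub_Yp (n : ℕ) : msub (psi n) (Yp : List (ℕ ⊕ S)) = Y := by
  simp [Yp, Y, y, psi]

theorem msub_hlp (n i : ℕ) : msub (psi n) (hlp n i : List (ℕ ⊕ S)) = hl n i := by
  unfold hlp hl
  split_ifs
  · rfl
  · rw [msub_m n i 5 (by omega)]; rfl

theorem msub_uup (n i : ℕ) : msub (psi n) (uup i : List (ℕ ⊕ S)) = uu i := by
  unfold uup uu
  split_ifs
  · rfl
  · rw [msub_m n i 4 (by omega), msub_append, msub_m n i 5 (by omega), msub_m n i 4 (by omega),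
      msub_Yp]
    rfl

theorem msub_stp (n i : ℕ) : msub (psi n) (stp n i : List (ℕ ⊕ S)) = stuff n i := by
  unfold stp stuff
  rw [msub_append, msub_append, msub_uup, msub_Yp, msub_hlp]

theorem msub_C1 (n i : ℕ) : msub (psi n) (C1 n i : List (ℕ ⊕ S)) = B1 n i := by
  unfold C1 B1
  rw [msub_m n i 0 (by omega), msub_m n i 2 (by omega), msub_m n i 2 (by omega), msub_append,
    msub_m n i 1 (by omega), msub_stp]
  rfl

theorem msub_C2 (n i : ℕ) : msub (psi n) (C2 n i : List (ℕ ⊕ S)) = B2 n i := by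
  unfold C2 B2
  rw [msub_m n i 0 (by omega), msub_append, msub_m n i 3 (by omega), msub_m n i 3 (by omega),
    msub_m n i 1 (by omega), msub_stp]
  rfl

theorem msub_blk (n : ℕ) (T : ℕ → S) (i : ℕ) (hi : i < n) :
    msub (psi n) (blk n T i) ++ [vv i 9] =
      (if i = 0 then [] else [vv (i - 1) 9]) ++ bp n T i := by
  unfold blk bp
  rw [msub_m n i 6 (by omega), msub_inr, msub_append, msub_inr, msub_m n i 7 (by omega), msub_inr,
    msub_append, msub_inr, msub_nil, msub_C1, msub_C2]
  have hin : i ≠ n := by omega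
  by_cases h0 : i = 0
  · subst h0
    simp [dec]
  · simp [dec, h0, hin]

theorem msub_range (n : ℕ) (T : ℕ → S) (k : ℕ) (hk : k ≤ n) :
    msub (psi n) ((List.range k).flatMap (blk n T)) ++ (if k = 0 then [] else [vv (k - 1) 9]) =
      (List.range k).flatMap (bp n T) := by
  induction k with
  | zero => rfl
  | succ k ih =>
    rw [List.range_succ, List.flatMap_append, List.flatMap_append, msub_append, ← ih (by omega)]
    simp only [List.flatMap_cons, List.flatMap_nil, List.append_nil, Nat.add_sub_cancel]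
    rw [if_neg (Nat.succ_ne_zero k)]
    simp only [List.append_assoc]
    rw [msub_blk n T k (by omega)]

theorem msub_pat (n : ℕ) (hn : 1 ≤ n) (T : ℕ → S) : msub (psi n) (pat n T) = al n T := by
  unfold pat al
  rw [msub_append, msub_m n n 6 (by omega), ← msub_range n T n le_rfl]
  have h0 : n ≠ 0 := by omega
  simp [dec, h0]

/-- substitution for `al` from a substitution for `pat` -/
def lift (n : ℕ) (σ : ℕ → List S) : Vr → List S
  | Sum.inl j => σ j.val
  | Sum.inr (_, 8) => []
  | Sum.inr (i, 9) => if i + 1 = n then σ (10 * n + 6 + 3) else []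
  | Sum.inr (i, 10) => σ (10 * i + 8 + 3)
  | Sum.inr (i, 11) => σ (10 * i + 9 + 3)
  | Sum.inr (i, c) => σ (10 * i + c + 3)

theorem app_lift_psi (n : ℕ) (hn : 1 ≤ n) (σ : ℕ → List S) (v : ℕ) :
    app (lift n σ) (psi n v) = σ v := by
  rcases Nat.lt_or_ge v 3 with h3 | h3
  · interval_cases v <;> simp [psi, vy, lift]
  · obtain ⟨i, c, hc, rfl⟩ : ∃ i c, c < 10 ∧ v = 10 * i + c + 3 :=
      ⟨(v - 3) / 10, (v - 3) % 10, by omega, by omega⟩
    rw [psi_m n i c hc]
    interval_cases c
    · simp [dec, vv, lift]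
    · simp [dec, vv, lift]
    · simp [dec, vv, lift]
    · simp [dec, vv, lift]
    · simp [dec, vv, lift]
    · simp [dec, vv, lift]
    · simp only [dec]
      split_ifs with h1 h2
      · subst h1
        simp [vv, lift]
      · subst h2
        have : i - 1 + 1 = i := by omega
        simp [vv, lift, this]
      · have : i - 1 + 1 ≠ n := by omega
        simp [vv, lift, this]
    · simp [dec, vv, lift]
    · simp [dec, vv, lift]
    · simp [dec, vv, lift]

theorem app_lift_al (n : ℕ) (hn : 1 ≤ n) (T : ℕ → S) (σ : ℕ → List S) :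
    app (lift n σ) (al n T) = app σ (pat n T) := by
  rw [← msub_pat n hn T, app_msub]
  congr 1
  funext v
  exact app_lift_psi n hn σ v

theorem app_descend (n : ℕ) (hn : 1 ≤ n) (T : ℕ → S) (τ : Vr → List S) :
    app (fun v => app τ (psi n v)) (pat n T) = app τ (al n T) := by
  rw [← msub_pat n hn T, app_msub]

/-- every substitution whose value at `2` has a letter missing in the values at `0` and `1` is
substantially ambiguous -/
theorem ambiguous (n : ℕ) (hn : 1 ≤ n) (T : ℕ → S) (d e : S)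
    (hsurj : ∀ c : S, c = d ∨ c = e ∨ ∃ j ≤ n, T j = c) (σ : ℕ → List S) (A : S)
    (h2 : A ∈ σ 2) (h0 : A ∉ σ 0) (h1 : A ∉ σ 1) :
    ∃ τ : ℕ → List S, app τ (pat n T) = app σ (pat n T) ∧ τ 2 = [] := by
  suffices h : ∃ τ : Vr → List S, app τ (al n T) = app (lift n σ) (al n T) ∧
      τ (Sum.inl 2) = [] by
    obtain ⟨τ, hτ, hτ2⟩ := h
    refine ⟨fun v => app τ (psi n v), ?_, ?_⟩
    · rw [app_descend n hn, hτ, app_lift_al n hn]
    · simp [psi, vy, hτ2]
  by_cases h : ∃ j ≤ n, T j ∈ app (lift n σ) (Y : List (Vr ⊕ S))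
  · obtain ⟨j, hj, hmem⟩ := h
    obtain ⟨P, Q, hPQ⟩ := List.append_of_mem hmem
    exact ⟨_, sg_case n T (lift n σ) j P Q hj hPQ, by simp [sg]⟩
  · push Not at h
    have hY : ∀ τ : Vr → List S, app τ (Y : List (Vr ⊕ S)) = τ (Sum.inl 0) ++ (τ (Sum.inl 0) ++
        (τ (Sum.inl 1) ++ (τ (Sum.inl 1) ++ (τ (Sum.inl 2) ++ τ (Sum.inl 2))))) := by
      intro τ
      simp [Y, vy]
    have hde : ∀ x, (x ∈ σ 0 ∨ x ∈ σ 1 ∨ x ∈ σ 2) → x = d ∨ x = e := by
      intro x hx
      rcases hsurj x with rfl | rfl | ⟨j, hj, rfl⟩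
      · exact Or.inl rfl
      · exact Or.inr rfl
      · refine absurd ?_ (h j hj)
        rw [hY]
        simp only [List.mem_append]
        have l0 : lift n σ (Sum.inl 0) = σ 0 := rfl
        have l1 : lift n σ (Sum.inl 1) = σ 1 := rfl
        have l2 : lift n σ (Sum.inl 2) = σ 2 := rfl
        rw [l0, l1, l2]
        tauto
    obtain ⟨f, hf⟩ : ∃ f, ∀ x, (x ∈ σ 0 ∨ x ∈ σ 1) → x = f := by
      rcases hde A (by tauto) with rfl | rfl
      · refine ⟨e, fun x hx => ?_⟩
        rcases hde x (by tauto) with rfl | rfl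
        · exact absurd hx (by tauto)
        · rfl
      · refine ⟨d, fun x hx => ?_⟩
        rcases hde x (by tauto) with rfl | rfl
        · rfl
        · exact absurd hx (by tauto)
    have ha : σ 0 = List.replicate (σ 0).length f :=
      List.eq_replicate_of_mem (fun x hx => hf x (Or.inl hx))
    have hb : σ 1 = List.replicate (σ 1).length f :=
      List.eq_replicate_of_mem (fun x hx => hf x (Or.inr hx))
    have hbin : List.replicate ((σ 0).length + (σ 1).length) f ++
        (List.replicate ((σ 0).length + (σ 1).length) f ++ (σ 2 ++ (σ 2 ++ ([] ++ [])))) =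
        σ 0 ++ (σ 0 ++ (σ 1 ++ (σ 1 ++ (σ 2 ++ σ 2)))) := by
      conv_rhs => rw [ha, hb]
      simp only [List.append_nil]
      simp only [← List.append_assoc, List.replicate_append_replicate]
      congr 3
      omega
    refine ⟨fun v => match v with
      | Sum.inl 0 => List.replicate ((σ 0).length + (σ 1).length) f
      | Sum.inl 1 => σ 2
      | Sum.inl 2 => []
      | Sum.inr p => lift n σ (Sum.inr p), ?_, rfl⟩
    apply app_al_congr
    intro i hi
    rw [app_bp, app_bp, app_uu, app_hl, app_uu, app_hl, hY, hY]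
    have l0 : lift n σ (Sum.inl 0) = σ 0 := rfl
    have l1 : lift n σ (Sum.inl 1) = σ 1 := rfl
    have l2 : lift n σ (Sum.inl 2) = σ 2 := rfl
    simp only [l0, l1, l2]
    rw [hbin]

/-! ### Morphic primitivity -/

/-- one block -/
theorem block_rigid {X : Type} {a b c d : X} (hac : a ≠ c) (had : a ≠ d)
    (hbc : b ≠ c) (hbd : b ≠ d) (hcd : c ≠ d) {s : List X}
    (hsc : c ∉ s) (hsd : d ∉ s) {A B C D U : List X}
    (h1 : A ++ (C ++ (C ++ (U ++ B))) = a :: c :: c :: (s ++ [b]))
    (h2 : A ++ (U ++ (D ++ (D ++ B))) = a :: (s ++ [d, d, b])) :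
    A = [a] ∧ B = [b] ∧ C = [c] ∧ D = [d] ∧ U = s := by
  have k1 := congrArg (cnt c) h1
  have k2 := congrArg (cnt c) h2
  have k3 := congrArg (cnt d) h1
  have k4 := congrArg (cnt d) h2
  simp only [cnt_append, cnt_self, cnt_ne hac, cnt_ne had, cnt_ne hbc, cnt_ne hbd, cnt_ne hcd,
    cnt_ne hcd.symm, cnt_zero hsc, cnt_zero hsd, cnt_nil] at k1 k2 k3 k4
  have hC : c ∈ C := mem_of_cnt_pos (by omega)
  have hD : d ∈ D := mem_of_cnt_pos (by omega)
  obtain ⟨P, Q, rfl⟩ := List.append_of_mem hC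
  obtain ⟨P', Q', rfl⟩ := List.append_of_mem hD
  simp only [cnt_append, cnt_self] at k1 k2 k3 k4
  have nA : c ∉ A := fun h => by have := cnt_pos h; omega
  have nP : c ∉ P := fun h => by have := cnt_pos h; omega
  have nQ : c ∉ Q := fun h => by have := cnt_pos h; omega
  have nA' : d ∉ A := fun h => by have := cnt_pos h; omega
  have nU' : d ∉ U := fun h => by have := cnt_pos h; omega
  have nP' : d ∉ P' := fun h => by have := cnt_pos h; omega
  have nQ' : d ∉ Q' := fun h => by have := cnt_pos h; omega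
  have e1 : (A ++ P) ++ c :: (Q ++ (P ++ c :: (Q ++ (U ++ B)))) = [a] ++ c :: (c :: (s ++ [b])) := by
    simpa using h1
  obtain ⟨f1, f2⟩ := split_mem (by simp [nA, nP]) (by simp [hac.symm]) e1
  have e2 : (Q ++ P) ++ c :: (Q ++ (U ++ B)) = [] ++ c :: (s ++ [b]) := by simpa using f2
  obtain ⟨f3, f4⟩ := split_mem (by simp [nQ, nP]) (by simp) e2
  obtain ⟨rfl, rfl⟩ := List.append_eq_nil_iff.mp f3
  have hA : A = [a] := by simpa using f1
  subst hA
  have e3 : ([a] ++ U ++ P') ++ d :: (Q' ++ (P' ++ d :: (Q' ++ B))) =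
      (a :: s) ++ d :: (d :: [b]) := by
    simpa using h2
  obtain ⟨f5, f6⟩ := split_mem (by simp [nU', nP', had.symm]) (by simp [hsd, had.symm]) e3
  have e4 : (Q' ++ P') ++ d :: (Q' ++ B) = [] ++ d :: [b] := by simpa using f6
  obtain ⟨f7, f8⟩ := split_mem (by simp [nQ', nP']) (by simp) e4
  obtain ⟨rfl, rfl⟩ := List.append_eq_nil_iff.mp f7
  refine ⟨rfl, by simpa using f8, rfl, rfl, by simpa using f5⟩

theorem Y_rigid {X : Type} {p q r : X} (hpq : p ≠ q) (hpr : p ≠ r) (hqr : q ≠ r)
    {P Q R : List X} (h : P ++ (P ++ (Q ++ (Q ++ (R ++ R)))) = [p, p, q, q, r, r]) :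
    P = [p] ∧ Q = [q] ∧ R = [r] := by
  have hlen := congrArg List.length h
  simp only [List.length_append, List.length_cons, List.length_nil] at hlen
  rcases P with _ | ⟨p1, _ | ⟨p2, _ | ⟨p3, _ | ⟨p4, P⟩⟩⟩⟩ <;>
  rcases Q with _ | ⟨q1, _ | ⟨q2, _ | ⟨q3, _ | ⟨q4, Q⟩⟩⟩⟩ <;>
  rcases R with _ | ⟨r1, _ | ⟨r2, _ | ⟨r3, _ | ⟨r4, R⟩⟩⟩⟩ <;>
  simp only [List.length_cons, List.length_nil] at hlen <;>
  first
  | (exfalso; omega)
  | (simp only [List.nil_append, List.cons_append, List.cons.injEq, and_true] at h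
     obtain ⟨h1, h2, h3, h4, h5, h6⟩ := h
     subst_vars
     simp_all)

/-- the chain -/
theorem chainp (n : ℕ) (f : ℕ → List (ℕ ⊕ S))
    (h : ∀ i < n, msub f (stp n i) = stp n i) :
    ∀ i < n, msub f Yp ++ msub f (hlp n (i + 1)) = Yp ++ hlp n (i + 1) ∧
      (i ≠ 0 → f (10 * i + 4 + 3) = [m i 4]) := by
  intro i
  induction i with
  | zero =>
    intro hi
    have h0 := h 0 hi
    refine ⟨?_, by simp⟩
    simpa [stp, uup] using h0
  | succ i ih =>
    intro hi
    have ih' := (ih (by omega)).1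
    have hin : i + 1 ≠ n := by omega
    have h1 := h (i + 1) hi
    have e5 : (hlp n (i + 1) : List (ℕ ⊕ S)) = [m (i + 1) 5] := by simp [hlp, hin]
    rw [e5] at ih'
    have eu : (uup (i + 1) : List (ℕ ⊕ S)) =
        m (i + 1) 4 :: (Yp ++ [m (i + 1) 5, m (i + 1) 4]) := by simp [uup]
    have f5 : msub f [m (i + 1) 5] = f (10 * (i + 1) + 5 + 3) := by simp [m]
    rw [f5] at ih'
    set v4 := f (10 * (i + 1) + 4 + 3) with hv4
    have hm4 : ∀ l : List (ℕ ⊕ S), msub f (m (i + 1) 4 :: l) = v4 ++ msub f l := fun l => by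
      rw [hv4]; rfl
    have hm5 : ∀ l : List (ℕ ⊕ S), msub f (m (i + 1) 5 :: l) =
        f (10 * (i + 1) + 5 + 3) ++ msub f l := fun l => rfl
    rw [stp, eu] at h1
    rw [List.cons_append, hm4, msub_append, msub_append, hm5, hm4, msub_nil] at h1
    have h2 : v4 ++ (Yp ++ (m (i + 1) 5 :: (v4 ++ (msub f Yp ++ msub f (hlp n (i + 1 + 1)))))) =
        m (i + 1) 4 :: (Yp ++ (m (i + 1) 5 :: (m (i + 1) 4 :: (Yp ++ hlp n (i + 1 + 1))))) := by
      have e : v4 ++ ((msub f Yp ++ f (10 * (i + 1) + 5 + 3)) ++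
          (v4 ++ (msub f Yp ++ msub f (hlp n (i + 1 + 1))))) =
        m (i + 1) 4 :: (Yp ++ (m (i + 1) 5 :: (m (i + 1) 4 :: (Yp ++ hlp n (i + 1 + 1))))) := by
        simpa using h1
      rw [ih'] at e
      simpa using e
    have nY : (m (i + 1) 5 : ℕ ⊕ S) ∉ (Yp : List (ℕ ⊕ S)) := by
      simp only [Yp, y, m, List.mem_cons, Sum.inl.injEq, List.not_mem_nil, or_false]
      omega
    have nh : (m (i + 1) 5 : ℕ ⊕ S) ∉ (hlp n (i + 1 + 1) : List (ℕ ⊕ S)) := by
      unfold hlp m
      split_ifs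
      · simp
      · simp only [List.mem_singleton, Sum.inl.injEq]
        omega
    have n4 : (m (i + 1) 4 : ℕ ⊕ S) ≠ m (i + 1) 5 := by simp [m]
    have k := congrArg (cnt (m (i + 1) 5)) h2
    simp only [cnt_append, cnt_self, cnt_ne n4, cnt_zero nY, cnt_zero nh] at k
    have nv : (m (i + 1) 5 : ℕ ⊕ S) ∉ v4 := fun hh => by have := cnt_pos hh; omega
    have h3 : (v4 ++ Yp) ++ m (i + 1) 5 :: (v4 ++ (msub f Yp ++ msub f (hlp n (i + 1 + 1)))) =
        (m (i + 1) 4 :: Yp) ++ m (i + 1) 5 :: (m (i + 1) 4 :: (Yp ++ hlp n (i + 1 + 1))) := by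
      simpa using h2
    obtain ⟨h4, h5⟩ := split_mem (by simp [nv, nY]) (by simp [nY, n4.symm]) h3
    have h6 : v4 = [m (i + 1) 4] := by
      have : v4 ++ Yp = [m (i + 1) 4] ++ Yp := by simpa using h4
      exact List.append_cancel_right this
    rw [h6] at h5
    refine ⟨by simpa using h5, fun _ => h6⟩

/-- the blocks can be treated separately -/
theorem splitp (n : ℕ) (T : ℕ → S) (f : ℕ → List (ℕ ⊕ S)) (hf : ∀ v, AL (f v))
    (l : List ℕ) : ∀ X X' : List (ℕ ⊕ S),
    l.flatMap (fun i => msub f (blk n T i)) ++ X = l.flatMap (blk n T) ++ X' →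
    (∀ i ∈ l, f (10 * i + 6 + 3) = [m i 6] ∧ msub f (C1 n i) = C1 n i ∧
      f (10 * i + 7 + 3) = [m i 7] ∧ msub f (C2 n i) = C2 n i) ∧ X = X' := by
  have hY : AL (Yp : List (ℕ ⊕ S)) := by
    intro s hs
    simp only [Yp, y, List.mem_cons, List.not_mem_nil, or_false] at hs
    rcases hs with rfl | rfl | rfl | rfl | rfl | rfl <;> rfl
  have hh : ∀ i, AL (hlp n i : List (ℕ ⊕ S)) := by
    intro i
    unfold hlp
    split_ifs
    · exact AL_nil
    · exact AL_cons AL_nil
  have hu : ∀ i, AL (uup i : List (ℕ ⊕ S)) := by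
    intro i
    unfold uup
    split_ifs
    · exact AL_nil
    · exact AL_cons (hY.append (AL_cons (AL_cons AL_nil)))
  have hs : ∀ i, AL (stp n i : List (ℕ ⊕ S)) := fun i => (hu i).append (hY.append (hh _))
  have h1 : ∀ i, AL (C1 n i : List (ℕ ⊕ S)) := fun i =>
    AL_cons (AL_cons (AL_cons ((hs i).append (AL_cons AL_nil))))
  have h2 : ∀ i, AL (C2 n i : List (ℕ ⊕ S)) := fun i =>
    AL_cons ((hs i).append (AL_cons (AL_cons (AL_cons AL_nil))))
  induction l with
  | nil => intro X X' h; exact ⟨by simp, by simpa using h⟩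
  | cons i l ih =>
    intro X X' h
    rw [List.flatMap_cons, List.flatMap_cons] at h
    have e : f (10 * i + 6 + 3) ++ Sum.inr (T i) :: (msub f (C1 n i) ++ Sum.inr (T (i + 1)) ::
        (f (10 * i + 7 + 3) ++ Sum.inr (T i) :: (msub f (C2 n i) ++ Sum.inr (T (i + 1)) ::
        (l.flatMap (fun i => msub f (blk n T i)) ++ X)))) =
        [m i 6] ++ Sum.inr (T i) :: (C1 n i ++ Sum.inr (T (i + 1)) ::
        ([m i 7] ++ Sum.inr (T i) :: (C2 n i ++ Sum.inr (T (i + 1)) ::
        (l.flatMap (blk n T) ++ X')))) := by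
      have hb : msub f (blk n T i) = f (10 * i + 6 + 3) ++ Sum.inr (T i) ::
          (msub f (C1 n i) ++ Sum.inr (T (i + 1)) ::
          (f (10 * i + 7 + 3) ++ Sum.inr (T i) :: (msub f (C2 n i) ++ [Sum.inr (T (i + 1))]))) := by
        have hm6 : ∀ l : List (ℕ ⊕ S), msub f (m i 6 :: l) =
          f (10 * i + 6 + 3) ++ msub f l := fun l => rfl
        have hm7 : ∀ l : List (ℕ ⊕ S), msub f (m i 7 :: l) =
          f (10 * i + 7 + 3) ++ msub f l := fun l => rfl
        rw [blk, hm6, msub_inr, msub_append, msub_inr, hm7, msub_inr, msub_append, msub_inr,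
          msub_nil]
      rw [hb] at h
      simpa [blk] using h
    obtain ⟨a1, a2⟩ := split_term (hf _) (AL_cons AL_nil) e
    obtain ⟨a3, a4⟩ := split_term (AL_msub (h1 i) (fun v _ => hf v)) (h1 i) a2
    obtain ⟨a5, a6⟩ := split_term (hf _) (AL_cons AL_nil) a4
    obtain ⟨a7, a8⟩ := split_term (AL_msub (h2 i) (fun v _ => hf v)) (h2 i) a6
    obtain ⟨b1, b2⟩ := ih X X' a8
    refine ⟨?_, b2⟩
    intro j hj
    rcases List.mem_cons.mp hj with rfl | hj
    · exact ⟨a1, a3, a5, a7⟩
    · exact b1 j hj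

theorem rigid (n : ℕ) (hn : 1 ≤ n) (T : ℕ → S) (f : ℕ → List (ℕ ⊕ S)) (hf : ∀ v, AL (f v))
    (h : msub f (pat n T) = pat n T) : ∀ s ∈ pat n T, msub f [s] = [s] := by
  have hm : ∀ (i c : ℕ) (l : List (ℕ ⊕ S)), msub f (m i c :: l) =
      f (10 * i + c + 3) ++ msub f l := fun i c l => rfl
  have e : (List.range n).flatMap (fun i => msub f (blk n T i)) ++ f (10 * n + 6 + 3) =
      (List.range n).flatMap (blk n T) ++ [m n 6] := by
    rw [pat, msub_append, msub_flatMap, hm] at h
    simpa using h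
  obtain ⟨hb, hlast⟩ := splitp n T f hf (List.range n) _ _ e
  have hblk : ∀ i < n, f (10 * i + 0 + 3) = [m i 0] ∧ f (10 * i + 1 + 3) = [m i 1] ∧
      f (10 * i + 2 + 3) = [m i 2] ∧ f (10 * i + 3 + 3) = [m i 3] ∧
      msub f (stp n i) = stp n i := by
    intro i hi
    obtain ⟨_, c1, _, c2⟩ := hb i (List.mem_range.mpr hi)
    rw [C1, hm, hm, hm, msub_append, hm, msub_nil, List.append_nil] at c1
    rw [C2, hm, msub_append, hm, hm, hm, msub_nil, List.append_nil] at c2
    have hnot : ∀ c < 4, (m i c : ℕ ⊕ S) ∉ (stp n i : List (ℕ ⊕ S)) := by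
      intro c hc
      unfold stp uup hlp Yp y m
      split_ifs <;>
      simp only [List.nil_append, List.cons_append, List.append_nil, List.mem_cons,
        Sum.inl.injEq, List.not_mem_nil, or_false] <;>
      omega
    have hne : ∀ c c' : ℕ, c ≠ c' → (m i c : ℕ ⊕ S) ≠ m i c' := by
      intro c c' hcc
      unfold m
      simp only [ne_eq, Sum.inl.injEq]
      omega
    exact block_rigid (hne 0 2 (by omega)) (hne 0 3 (by omega))
      (hne 1 2 (by omega)) (hne 1 3 (by omega)) (hne 2 3 (by omega))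
      (hnot 2 (by omega)) (hnot 3 (by omega)) c1 c2
  have hch := chainp n f (fun i hi => (hblk i hi).2.2.2.2)
  have hY : msub f (Yp : List (ℕ ⊕ S)) = Yp := by
    have := (hch (n - 1) (by omega)).1
    have e1 : n - 1 + 1 = n := by omega
    simpa [hlp, e1] using this
  have hH : ∀ i < n, msub f (hlp n (i + 1) : List (ℕ ⊕ S)) = hlp n (i + 1) := by
    intro i hi
    have := (hch i hi).1
    rw [hY] at this
    exact List.append_cancel_left this
  have hYr : f 0 = [y 0] ∧ f 1 = [y 1] ∧ f 2 = [y 2] := by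
    have e1 : msub f (Yp : List (ℕ ⊕ S)) = f 0 ++ (f 0 ++ (f 1 ++ (f 1 ++ (f 2 ++ f 2)))) := by
      simp [Yp, y]
    rw [e1] at hY
    exact Y_rigid (by simp [y]) (by simp [y]) (by simp [y]) hY
  obtain ⟨y0, y1, y2⟩ := hYr
  have sY : ∀ s ∈ (Yp : List (ℕ ⊕ S)), msub f [s] = [s] := by
    intro s hs
    simp only [Yp, List.mem_cons, List.not_mem_nil, or_false] at hs
    rcases hs with rfl | rfl | rfl | rfl | rfl | rfl
    · simpa [y] using y0
    · simpa [y] using y0
    · simpa [y] using y1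
    · simpa [y] using y1
    · simpa [y] using y2
    · simpa [y] using y2
  have sH : ∀ i < n, ∀ s ∈ (hlp n (i + 1) : List (ℕ ⊕ S)), msub f [s] = [s] := by
    intro i hi s hs
    have h1 := hH i hi
    unfold hlp at hs h1
    split_ifs at hs h1 with h2
    · simp at hs
    · rw [List.mem_singleton] at hs
      rw [hs]; exact h1
  have sU : ∀ i < n, ∀ s ∈ (uup i : List (ℕ ⊕ S)), msub f [s] = [s] := by
    intro i hi s hs
    unfold uup at hs
    split_ifs at hs with h0
    · simp at hs
    · have h5 : msub f [(m i 5 : ℕ ⊕ S)] = [m i 5] := by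
        obtain ⟨j, rfl⟩ : ∃ j, i = j + 1 := ⟨i - 1, by omega⟩
        apply sH j (by omega)
        have : j + 1 ≠ n := by omega
        simp [hlp, this]
      have h4 : msub f [(m i 4 : ℕ ⊕ S)] = [m i 4] := by
        have := (hch i hi).2 h0
        rw [hm, this]; rfl
      rcases List.mem_cons.mp hs with rfl | hs
      · exact h4
      · rcases List.mem_append.mp hs with hs | hs
        · exact sY s hs
        · simp only [List.mem_cons, List.not_mem_nil, or_false] at hs
          rcases hs with rfl | rfl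
          · exact h5
          · exact h4
  have sS : ∀ i < n, ∀ s ∈ (stp n i : List (ℕ ⊕ S)), msub f [s] = [s] := by
    intro i hi s hs
    unfold stp at hs
    rcases List.mem_append.mp hs with hs | hs
    · exact sU i hi s hs
    · rcases List.mem_append.mp hs with hs | hs
      · exact sY s hs
      · exact sH i hi s hs
  have one : ∀ i c : ℕ, f (10 * i + c + 3) = [m i c] → msub f [(m i c : ℕ ⊕ S)] = [m i c] := by
    intro i c hic
    rw [hm, hic]; rfl
  intro s hs
  unfold pat at hs
  rcases List.mem_append.mp hs with hs | hs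
  · obtain ⟨i, hi, hs⟩ := List.mem_flatMap.mp hs
    obtain ⟨d6, _, d7, _⟩ := hb i hi
    have hi' := List.mem_range.mp hi
    obtain ⟨d0, d1, d2, d3, _⟩ := hblk i hi'
    have sC1 : ∀ s ∈ (C1 n i : List (ℕ ⊕ S)), msub f [s] = [s] := by
      intro s hs
      simp only [C1, List.mem_cons, List.mem_append, List.not_mem_nil, or_false] at hs
      rcases hs with rfl | rfl | rfl | hs | rfl
      · exact one i 0 d0
      · exact one i 2 d2
      · exact one i 2 d2
      · exact sS i hi' s hs
      · exact one i 1 d1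
    have sC2 : ∀ s ∈ (C2 n i : List (ℕ ⊕ S)), msub f [s] = [s] := by
      intro s hs
      simp only [C2, List.mem_cons, List.mem_append, List.not_mem_nil, or_false] at hs
      rcases hs with rfl | hs | rfl | rfl | rfl
      · exact one i 0 d0
      · exact sS i hi' s hs
      · exact one i 3 d3
      · exact one i 3 d3
      · exact one i 1 d1
    simp only [blk, List.mem_cons, List.mem_append, List.not_mem_nil, or_false] at hs
    rcases hs with rfl | rfl | hs | rfl | rfl | rfl | hs | rfl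
    · exact one i 6 d6
    · simp
    · exact sC1 s hs
    · simp
    · exact one i 7 d7
    · simp
    · exact sC2 s hs
    · simp
  · rw [List.mem_singleton] at hs
    rw [hs]
    exact one n 6 hlast

theorem AL_of_countP {l : List (ℕ ⊕ S)} (h : l.countP Sum.isRight = 0) : AL l := by
  intro s hs
  have := List.countP_eq_zero.mp h s hs
  rcases s with v | a
  · rfl
  · simp at this

theorem fixes (n : ℕ) (hn : 1 ≤ n) (T : ℕ → S) (f : ℕ → List (ℕ ⊕ S))
    (h : msub f (pat n T) = pat n T) (v : ℕ) (hv : Sum.inl v ∈ pat n T) : f v = [Sum.inl v] := by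
  classical
  let g : ℕ → List (ℕ ⊕ S) := fun v => if Sum.inl v ∈ pat n T then f v else []
  have hg : msub g (pat n T) = pat n T := by
    have e : msub g (pat n T) = msub f (pat n T) := by
      apply msub_congr
      intro w hw
      simp [g, hw]
    rw [e, h]
  have hAL : ∀ w, AL (g w) := by
    intro w
    by_cases hw : Sum.inl w ∈ pat n T
    · have h1 := countP_msub_ge' g (pat n T) w hw
      rw [hg] at h1
      exact AL_of_countP (by omega)
    · simp only [g, if_neg hw]
      exact AL_nil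
  have := rigid n hn T g hAL hg (Sum.inl v) hv
  simpa [g, hv] using this

theorem length_msub_ge (φ : ℕ → List (ℕ ⊕ S)) (α : List (ℕ ⊕ S))
    (h : ∀ v, Sum.inl v ∈ α → φ v ≠ []) : α.length ≤ (msub φ α).length := by
  induction α with
  | nil => simp
  | cons s α ih =>
    have ih' := ih (fun v hv => h v (List.mem_cons_of_mem _ hv))
    rcases s with v | a
    · have := List.length_pos_of_ne_nil (h v (by simp))
      rw [msub_inl, List.length_append, List.length_cons]
      omega
    · rw [msub_inr, List.length_cons, List.length_cons]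
      omega

theorem primitive (n : ℕ) (hn : 1 ≤ n) (T : ℕ → S) (β : List (ℕ ⊕ S))
    (φ ψ : ℕ → List (ℕ ⊕ S)) (hlen : β.length < (pat n T).length) (h1 : msub φ (pat n T) = β)
    (h2 : msub ψ β = pat n T) : False := by
  have h3 : msub (fun v => msub ψ (φ v)) (pat n T) = pat n T := by
    rw [← msub_msub, h1, h2]
  have h4 := length_msub_ge φ (pat n T) (fun v hv hφ => by
    have := fixes n hn T _ h3 v hv
    simp [hφ] at this)
  rw [h1] at h4
  omega

theorem y_mem (n : ℕ) (hn : 1 ≤ n) (T : ℕ → S) (j : ℕ) (hj : j < 3) :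
    Sum.inl j ∈ pat n T := by
  unfold pat
  rw [List.mem_append]
  left
  rw [List.mem_flatMap]
  refine ⟨0, List.mem_range.mpr (by omega), ?_⟩
  interval_cases j <;> simp [blk, C1, stp, uup, Yp, y, m]

theorem inr_mem_pat (n : ℕ) (hn : 1 ≤ n) (T : ℕ → S) (a : S) (h : Sum.inr a ∈ pat n T) :
    ∃ j ≤ n, a = T j := by
  apply inr_mem_al n T a
  rw [← msub_pat n hn T]
  unfold msub
  rw [List.mem_flatMap]
  exact ⟨_, h, by simp⟩

end Merged

theorem subst_tf_inl {k : ℕ} (σ : ℕ → List (Fin k)) (v : ℕ) (α : Pat k) :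
    subst σ (tf (Sum.inl v :: α)) = σ v ++ subst σ (tf α) := by
  have h : tf (Sum.inl v :: α) = Sum.inl v :: tf α := List.filter_cons_of_pos rfl
  rw [h]
  rfl

theorem subst_tf_inr {k : ℕ} (σ : ℕ → List (Fin k)) (a : Fin k) (α : Pat k) :
    subst σ (tf (Sum.inr a :: α)) = subst σ (tf α) := by
  have h : tf (Sum.inr a :: α) = tf α := List.filter_cons_of_neg (by simp)
  rw [h]

theorem occ_cons {k : ℕ} (j : ℕ) (s : ℕ ⊕ Fin k) (α : Pat k) :
    occ j (s :: α) = occ j α + if s = Sum.inl j then 1 else 0 := by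
  unfold occ
  rw [List.countP_cons]
  simp

/-- counting the letter of a telltale candidate -/
theorem count_tf_ge {k : ℕ} (σ : ℕ → List (Fin k)) (A : Fin k)
    (h2 : (σ 2).count A = 1) (α : Pat k) :
    occ 2 α ≤ (subst σ (tf α)).count A := by
  induction α with
  | nil => simp [occ]
  | cons s α ih =>
    rw [occ_cons]
    rcases s with v | a
    · rw [subst_tf_inl, List.count_append]
      by_cases hv : v = 2
      · subst hv
        rw [h2, if_pos rfl]
        omega
      · rw [if_neg (by simpa using hv)]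
        omega
    · rw [subst_tf_inr, if_neg (by simp)]
      exact ih

theorem count_tf_gt {k : ℕ} (σ : ℕ → List (Fin k)) (A : Fin k) (u : ℕ) (hu : u ≠ 2)
    (h2 : (σ 2).count A = 1) (hA : A ∈ σ u) (α : Pat k) (hα : Sum.inl u ∈ α) :
    occ 2 α < (subst σ (tf α)).count A := by
  induction α with
  | nil => simp at hα
  | cons s α ih =>
    rw [occ_cons]
    rcases s with v | a
    · rw [subst_tf_inl, List.count_append]
      by_cases hv : v = u
      · subst hv
        have hAu : 0 < (σ v).count A := List.count_pos_iff.mpr hA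
        have := count_tf_ge σ A h2 α
        rw [if_neg (by simpa using hu)]
        omega
      · have hmem : Sum.inl u ∈ α := by
          rcases List.mem_cons.mp hα with h | h
          · exact absurd (Sum.inl.inj h).symm hv
          · exact h
        have := ih hmem
        by_cases hv2 : v = 2
        · subst hv2
          rw [h2, if_pos rfl]
          omega
        · rw [if_neg (by simpa using hv2)]
          omega
    · have hmem : Sum.inl u ∈ α := by
        rcases List.mem_cons.mp hα with h | h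
        · simp at h
        · exact h
      rw [subst_tf_inr, if_neg (by simp)]
      exact ih hmem

/-- For every alphabet with `k ≥ 5` letters there are a morphically primitive pattern `α`,
quasi-terminal-free on the alphabet, and a variable `i` of `α` such that every telltale candidate
for `i` is substantially ambiguous for `i` in `α`. -/
theorem result : ∀ k : ℕ, 5 ≤ k → ∃ (α : Pat k) (i : ℕ),
    α ≠ [] ∧ MorphicallyPrimitive α ∧ QuasiTerminalFree α ∧ Sum.inl i ∈ α ∧
    ∀ σ : ℕ → List (Fin k), TelltaleCandidate σ i α → SubstantiallyAmbiguous σ i α := by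
  intro k hk
  obtain ⟨n, rfl⟩ : ∃ n, k = n + 3 := ⟨k - 3, by omega⟩
  have hn : 1 ≤ n := by omega
  let T : ℕ → Fin (n + 3) := fun j => ⟨j % (n + 1), by have := Nat.mod_lt j (show 0 < n + 1 by omega); omega⟩
  have hT : ∀ j ≤ n, (T j).val = j := fun j hj => Nat.mod_eq_of_lt (by omega)
  refine ⟨pat n T, 2, ?_, ?_, ?_, y_mem n hn T 2 (by omega), ?_⟩
  · intro h
    have := y_mem n hn T 2 (by omega)
    rw [h] at this
    simp at this
  · rintro ⟨β, φ, ψ, _, hlen, h1, h2⟩
    exact primitive n hn T β φ ψ hlen h1 h2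
  · refine ⟨⟨n + 1, by omega⟩, ⟨n + 2, by omega⟩, by simp, fun h => ?_, fun h => ?_⟩
    · obtain ⟨j, hj, e⟩ := inr_mem_pat n hn T _ h
      have := congrArg Fin.val e
      rw [hT j hj] at this
      simp only at this
      omega
    · obtain ⟨j, hj, e⟩ := inr_mem_pat n hn T _ h
      have := congrArg Fin.val e
      rw [hT j hj] at this
      simp only at this
      omega
  · rintro σ ⟨A, hA2, hcount⟩
    have hnot : ∀ u < 2, A ∉ σ u := by
      intro u hu hAu
      have h1 := count_tf_gt σ A u (by omega) hA2 hAu (pat n T) (y_mem n hn T u (by omega))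
      omega
    have hsurj : ∀ c : Fin (n + 3), c = ⟨n + 1, by omega⟩ ∨ c = ⟨n + 2, by omega⟩ ∨
        ∃ j ≤ n, T j = c := by
      intro c
      rcases Nat.lt_or_ge c.val (n + 1) with hc | hc
      · exact Or.inr (Or.inr ⟨c.val, by omega, Fin.ext (hT c.val (by omega))⟩)
      · rcases Nat.lt_or_ge c.val (n + 2) with hc' | hc'
        · exact Or.inl (Fin.ext (by simp only; omega))
        · exact Or.inr (Or.inl (Fin.ext (by have := c.isLt; simp only; omega)))
    obtain ⟨τ, h1, h2⟩ := ambiguous n hn T _ _ hsurj σ A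
      (List.count_pos_iff.mp (by omega)) (hnot 0 (by omega)) (hnot 1 (by omega))
    exact ⟨τ, h1, h2⟩

end Pool.Agent.Results.MP_0fc137_lc.AllTelltalesAmbiguous
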